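import Pool.Agent.H289PL.LP

/-!
Bottlegraphs and fractional tilings.
-/

namespace Pool.Agent.H289PL

open Pool.Agent.H730R4

/-- The interval position of a labelled vertex. -/
lemma label_mono {N k : ℕ} {c : Fin N → Fin k} {σ : Equiv.Perm (Fin k)} {φ : Equiv.Perm (Fin N)}
    (hφ : ∀ u v, σ (c u) < σ (c v) → φ u < φ v) : Monotone (fun u => σ (c (φ.symm u))) := by
  intro u v huv
  by_contra hcon
  rw [not_le] at hcon
  have h1 := hφ _ _ hcon
  rw [Equiv.apply_symm_apply, Equiv.apply_symm_apply] at h1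
  exact absurd huv (not_le.2 h1)

lemma label_fiber {N k : ℕ} (c : Fin N → Fin k) (σ : Equiv.Perm (Fin k))
    (φ : Equiv.Perm (Fin N)) (i : Fin k) :
    (Finset.univ.filter (fun u => σ (c (φ.symm u)) = i)).card =
      {v | c v = σ.symm i}.ncard := by
  have h1 : {v | c v = σ.symm i} = ↑((Finset.univ.filter (fun u => σ (c (φ.symm u)) = i)).image
      φ.symm) := by
    ext v
    simp only [Set.mem_ofPred_eq, Finset.coe_image, Finset.coe_filter, Finset.mem_univ, true_and,
      Set.mem_image]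
    constructor
    · intro hv
      refine ⟨φ v, ?_, φ.symm_apply_apply v⟩
      rw [φ.symm_apply_apply, hv, σ.apply_symm_apply]
    · rintro ⟨u, hu, rfl⟩
      rw [← hu, σ.symm_apply_apply]
  rw [h1, Set.ncard_coe_finset, Finset.card_image_of_injective _ φ.symm.injective]

lemma label_adj {N k : ℕ} {B : SimpleGraph (Fin N)} {c : Fin N → Fin k}
    (hB : ∀ u v, B.Adj u v ↔ c u ≠ c v) (σ : Equiv.Perm (Fin k)) (φ : Equiv.Perm (Fin N)) :
    ∀ u v, (B.comap φ.symm).Adj u v ↔ σ (c (φ.symm u)) ≠ σ (c (φ.symm v)) := by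
  intro u v
  rw [SimpleGraph.comap_adj, hB]
  exact (σ.injective.ne_iff).symm

/-- The number of vertices of a complete multipartite graph with all parts but one of size `m`. -/
lemma card_parts {N k m : ℕ} {c : Fin N → Fin k} {i₀ : Fin k}
    (h : ∀ i, i ≠ i₀ → {v | c v = i}.ncard = m) :
    N + m = k * m + {v | c v = i₀}.ncard := by
  classical
  have h1 := Finset.card_eq_sum_card_fiberwise (f := c) (s := Finset.univ) (t := Finset.univ)
    (fun _ _ => Finset.mem_coe.2 (Finset.mem_univ _))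
  rw [Finset.card_univ, Fintype.card_fin] at h1
  have h2 : ∀ i, (Finset.univ.filter (fun v => c v = i)).card = {v | c v = i}.ncard := by
    intro i
    rw [← Set.ncard_coe_finset]
    congr 1
    ext v
    simp
  simp only [h2] at h1
  rw [← Finset.add_sum_erase _ _ (Finset.mem_univ i₀)] at h1
  rw [Finset.sum_congr rfl fun i hi => h i (Finset.ne_of_mem_erase hi)] at h1
  rw [Finset.sum_const, Finset.card_erase_of_mem (Finset.mem_univ _), Finset.card_univ,
    Fintype.card_fin, smul_eq_mul] at h1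
  have hk : 0 < k := i₀.pos
  obtain ⟨k', rfl⟩ : ∃ k', k = k' + 1 := ⟨k - 1, by omega⟩
  rw [Nat.add_sub_cancel] at h1
  rw [add_mul, one_mul]
  omega

lemma chiCr_eq {N k m : ℕ} {B : SimpleGraph (Fin N)} {c : Fin N → Fin k} {i₀ : Fin k}
    (hk : 2 ≤ k) (hm : 0 < m) (hc : Function.Surjective c) (hB : ∀ u v, B.Adj u v ↔ c u ≠ c v)
    (h₀ : {v | c v = i₀}.ncard ≤ m) (h : ∀ i, i ≠ i₀ → {v | c v = i}.ncard = m) :
    chiCr B = N / m := by
  have h1 := card_parts h
  have h2 : leastClass B k = {v | c v = i₀}.ncard := by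
    apply le_antisymm (mp_least_le hB i₀)
    obtain ⟨j, hj⟩ := mp_least_mem (by omega) hc hB
    rw [hj]
    by_cases hji : j = i₀
    · rw [hji]
    · rw [h j hji]
      exact h₀
  unfold chiCr
  rw [mp_chrom hc hB, h2]
  have h3 : (N : ℝ) + m = k * m + {v | c v = i₀}.ncard := by exact_mod_cast h1
  have hm' : (0 : ℝ) < m := by exact_mod_cast hm
  have hk' : (2 : ℝ) ≤ k := by exact_mod_cast hk
  have h4 : (N : ℝ) - {v | c v = i₀}.ncard = (k - 1) * m := by linarith
  rw [h4, mul_comm ((k : ℝ) - 1) m, mul_comm ((k : ℝ) - 1) N]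
  have h5 : (k : ℝ) - 1 ≠ 0 := by linarith
  exact mul_div_mul_right _ _ h5

/-- A bottlegraph gives a fractional solution. -/
lemma fr_of_bottle {h N : ℕ} {H : SimpleGraph (Fin h)} {a b : Fin h} (hab : H.Adj a b) {x : ℝ}
    (hx : 0 < x) {B : SimpleGraph (Fin N)} (hB : IsBottle x H B) :
    ∃ (k : ℕ) (z : ℝ), 2 ≤ k ∧ 0 < z ∧ Fr H k x z ∧ chiCr B = 1 / z := by
  classical
  obtain ⟨hN, k, m, c, i₀, hc, hadj, h₀, hoth, hall⟩ := hB
  have hs : 0 < {v | c v = i₀}.ncard := by
    obtain ⟨v, hv⟩ := hc i₀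
    exact (Set.ncard_pos (Set.toFinite _)).2 ⟨v, hv⟩
  have hm : 0 < m := lt_of_lt_of_le hs h₀
  have hN' : (0 : ℝ) < N := by exact_mod_cast hN
  have hm' : (0 : ℝ) < m := by exact_mod_cast hm
  -- weights for each position
  have key : ∀ p : Fin k, ∃ n : Ty H k → ℕ,
      (∀ i, ∑ τ, n τ * cnt τ.1 i ≤ if i = p then {v | c v = i₀}.ncard else m) ∧
        x * N ≤ h * ∑ τ, (n τ : ℝ) := by
    intro p
    obtain ⟨φ, hφ⟩ := exists_sorted (fun v => (Equiv.swap i₀ p) (c v))
    obtain ⟨T, hT, hTx⟩ := hall (Equiv.swap i₀ p) φ hφ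
    obtain ⟨n, hn, hn2⟩ := weights_of_tiling H _ (label_mono hφ) _
      (label_adj hadj (Equiv.swap i₀ p) φ) T hT
    refine ⟨n, fun i => (hn i).trans (le_of_eq ?_), ?_⟩
    · rw [label_fiber, Equiv.symm_swap]
      by_cases hip : i = p
      · rw [if_pos hip, hip, Equiv.swap_apply_right]
      · rw [if_neg hip]
        apply hoth
        intro h1
        rw [Equiv.swap_apply_eq_iff, Equiv.swap_apply_left] at h1
        exact hip h1
    · rw [hn2] at hTx
      push_cast at hTx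
      exact hTx
  have hk : 2 ≤ k := by
    by_contra hcon
    have hk1 : k = 1 := by
      have := i₀.pos
      omega
    subst hk1
    obtain ⟨n, _, hn⟩ := key i₀
    have hemp : ∀ τ : Ty H 1, False := fun τ => τ.2.2 a b hab (Subsingleton.elim _ _)
    have : IsEmpty (Ty H 1) := ⟨hemp⟩
    rw [Finset.univ_eq_empty, Finset.sum_empty, mul_zero] at hn
    nlinarith [mul_pos hx hN']
  have hcard := card_parts hoth
  have h3 : (N : ℝ) + m = k * m + {v | c v = i₀}.ncard := by exact_mod_cast hcard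
  have hs' : (0 : ℝ) < {v | c v = i₀}.ncard := by exact_mod_cast hs
  have h₀' : ({v | c v = i₀}.ncard : ℝ) ≤ m := by exact_mod_cast h₀
  refine ⟨k, m / N, hk, by positivity, ⟨?_, ?_, fun p => ?_⟩, ?_⟩
  · rw [← mul_div_assoc, le_div_iff₀ hN']
    linarith
  · rw [← mul_div_assoc, div_le_iff₀ hN']
    linarith
  · obtain ⟨n, hn, hn2⟩ := key p
    refine ⟨fun τ => n τ / N, fun τ => by positivity, fun i => ?_, ?_⟩
    · have h4 : ∑ τ : Ty H k, (cnt τ.1 i : ℝ) * ((n τ : ℝ) / N) =
          ((∑ τ, n τ * cnt τ.1 i : ℕ) : ℝ) / N := by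
        push_cast
        rw [Finset.sum_div]
        exact Finset.sum_congr rfl fun τ _ => by ring
      rw [h4, div_le_iff₀ hN']
      have h5 : ((∑ τ, n τ * cnt τ.1 i : ℕ) : ℝ) ≤
          ((if i = p then {v | c v = i₀}.ncard else m : ℕ) : ℝ) := by exact_mod_cast hn i
      refine h5.trans (le_of_eq ?_)
      split_ifs
      · field_simp
        linarith
      · field_simp
    · rw [← Finset.sum_div, ← mul_div_assoc, le_div_iff₀ hN']
      exact hn2
  · rw [chiCr_eq hk hm hc hadj h₀ hoth, one_div, inv_div]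

lemma exists_parts {k : ℕ} (size : Fin k → ℕ) :
    ∃ c : Fin (∑ i, size i) → Fin k, ∀ i, {v | c v = i}.ncard = size i := by
  refine ⟨fun v => (finSigmaFinEquiv.symm v).1, fun i => ?_⟩
  have h1 : {v | (finSigmaFinEquiv.symm v).1 = i} =
      (fun a : Fin (size i) => finSigmaFinEquiv ⟨i, a⟩) '' Set.univ := by
    ext v
    simp only [Set.mem_ofPred_eq, Set.image_univ, Set.mem_range]
    constructor
    · rintro rfl
      exact ⟨(finSigmaFinEquiv.symm v).2, by simp⟩
    · rintro ⟨a, rfl⟩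
      simp
  rw [h1, Set.ncard_image_of_injective, Set.ncard_univ, Nat.card_eq_fintype_card,
    Fintype.card_fin]
  intro a a' haa
  have := finSigmaFinEquiv.injective haa
  simpa using this

/-- Integral weights for all positions give a bottlegraph. -/
lemma bottle_of_weights {h k m s : ℕ} {H : SimpleGraph (Fin h)} {x : ℝ} (hk : 2 ≤ k)
    (hs : 0 < s) (hsm : s ≤ m)
    (hw : ∀ p : Fin k, ∃ n : Ty H k → ℕ, (∀ i, ∑ τ, n τ * cnt τ.1 i ≤ if i = p then s else m) ∧
      x * (((k : ℝ) - 1) * m + s) ≤ h * ∑ τ, (n τ : ℝ)) :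
    ∃ (N : ℕ) (B : SimpleGraph (Fin N)), IsBottle x H B ∧
      chiCr B = (((k : ℝ) - 1) * m + s) / m := by
  classical
  let i₀ : Fin k := ⟨0, by omega⟩
  obtain ⟨N, c, hcs⟩ : ∃ (N : ℕ) (c : Fin N → Fin k),
      ∀ i, {v | c v = i}.ncard = if i = i₀ then s else m :=
    ⟨_, exists_parts (fun i : Fin k => if i = i₀ then s else m)⟩
  have hsurj : Function.Surjective c := by
    intro i
    have h1 : 0 < {v | c v = i}.ncard := by
      rw [hcs]
      split_ifs <;> omega
    obtain ⟨v, hv⟩ := (Set.ncard_pos (Set.toFinite _)).1 h1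
    exact ⟨v, hv⟩
  have h₀ : {v | c v = i₀}.ncard = s := by rw [hcs, if_pos rfl]
  have hoth : ∀ i, i ≠ i₀ → {v | c v = i}.ncard = m := fun i hi => by rw [hcs, if_neg hi]
  have hcard := card_parts hoth
  rw [h₀] at hcard
  have hNr : (N : ℝ) = ((k : ℝ) - 1) * m + s := by
    have : (N : ℝ) + m = k * m + s := by exact_mod_cast hcard
    linarith
  let B : SimpleGraph (Fin N) :=
    { Adj := fun u v => c u ≠ c v
      symm := ⟨fun _ _ hh => Ne.symm hh⟩
      loopless := ⟨fun _ hh => hh rfl⟩ }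
  have hB : ∀ u v, B.Adj u v ↔ c u ≠ c v := fun u v => Iff.rfl
  have hNpos : 0 < N := by
    obtain ⟨v, _⟩ := hsurj i₀
    exact v.pos
  refine ⟨N, B, ⟨hNpos, k, m, c, i₀, hsurj, hB, h₀.le.trans hsm, hoth, ?_⟩, ?_⟩
  · intro σ φ hφ
    obtain ⟨n, hn, hnx⟩ := hw (σ i₀)
    obtain ⟨T, hT, _, hTc⟩ := tiling_of_weights H _ (label_mono hφ) _ (label_adj hB σ φ)
      (∑ τ, n τ) Finset.univ n rfl (fun i => by
        refine (hn i).trans (le_of_eq ?_)
        rw [label_fiber]
        by_cases hi : i = σ i₀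
        · rw [if_pos hi, hi, Equiv.symm_apply_apply, h₀]
        · rw [if_neg hi, hoth]
          intro h1
          exact hi ((Equiv.symm_apply_eq σ).1 h1))
    refine ⟨T, hT, ?_⟩
    rw [hTc, hNr]
    push_cast
    exact hnx
  · rw [chiCr_eq hk (by omega) hsurj hB (h₀.le.trans hsm) hoth, hNr]

end Pool.Agent.H289PL
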