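import Pool.Agent.H289PL.Defs

/-!
Tilings of interval-ordered complete multipartite graphs and integral weights on the
interval colourings of `H`.
-/

namespace Pool.Agent.H289PL

open Pool.Agent.H730R4

/-- Monotone proper colourings of `H` with `k` colours. -/
abbrev Ty {h : ℕ} (H : SimpleGraph (Fin h)) (k : ℕ) :=
  {τ : Fin h → Fin k // Monotone τ ∧ ∀ a b, H.Adj a b → τ a ≠ τ b}

noncomputable instance {h : ℕ} (H : SimpleGraph (Fin h)) (k : ℕ) : Fintype (Ty H k) :=
  Fintype.ofFinite _

/-- Size of a colour class. -/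
def cnt {h k : ℕ} (τ : Fin h → Fin k) (i : Fin k) : ℕ :=
  (Finset.univ.filter (fun a => τ a = i)).card

lemma sum_cnt {h k : ℕ} (τ : Fin h → Fin k) : ∑ i, cnt τ i = h := by
  have := Finset.card_eq_sum_card_fiberwise (f := τ) (s := Finset.univ) (t := Finset.univ)
    (fun _ _ => Finset.mem_coe.2 (Finset.mem_univ _))
  rw [Finset.card_univ, Fintype.card_fin] at this
  exact this.symm

lemma lt_iff_card {h k : ℕ} {g : Fin h → Fin k} (hg : Monotone g) (a : Fin h) (i : Fin k) :
    g a < i ↔ (a : ℕ) < (Finset.univ.filter (fun b => g b < i)).card := by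
  constructor
  · intro h1
    have : Finset.Iic a ⊆ Finset.univ.filter (fun b => g b < i) := by
      intro b hb
      rw [Finset.mem_Iic] at hb
      simp only [Finset.mem_filter, Finset.mem_univ, true_and]
      exact lt_of_le_of_lt (hg hb) h1
    have h2 := Finset.card_le_card this
    rw [Fin.card_Iic] at h2
    omega
  · intro h1
    by_contra hcon
    rw [not_lt] at hcon
    have : Finset.univ.filter (fun b => g b < i) ⊆ Finset.Iio a := by
      intro b hb
      simp only [Finset.mem_filter, Finset.mem_univ, true_and] at hb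
      rw [Finset.mem_Iio]
      by_contra hb2
      exact absurd (lt_of_le_of_lt (hg (not_lt.1 hb2)) hb) (not_lt.2 hcon)
    have h2 := Finset.card_le_card this
    rw [Fin.card_Iio] at h2
    omega

lemma card_lt {h k : ℕ} (g : Fin h → Fin k) (i : Fin k) :
    (Finset.univ.filter (fun b => g b < i)).card = ∑ j ∈ Finset.Iio i, cnt g j := by
  have := Finset.card_eq_sum_card_fiberwise (f := g)
    (s := Finset.univ.filter (fun b => g b < i)) (t := Finset.Iio i)
    (fun x hx => by
      have hx' := Finset.mem_coe.1 hx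
      rw [Finset.mem_filter] at hx'
      exact Finset.mem_coe.2 (Finset.mem_Iio.2 hx'.2))
  rw [this]
  refine Finset.sum_congr rfl fun j hj => ?_
  unfold cnt
  congr 1
  ext b
  simp only [Finset.mem_filter, Finset.mem_univ, true_and]
  rw [Finset.mem_Iio] at hj
  constructor
  · exact fun h => h.2
  · exact fun h => ⟨h ▸ hj, h⟩

lemma mono_eq {h k : ℕ} {g g' : Fin h → Fin k} (hg : Monotone g) (hg' : Monotone g')
    (hc : ∀ i, cnt g i = cnt g' i) : g = g' := by
  have key : ∀ a i, g a < i ↔ g' a < i := by
    intro a i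
    rw [lt_iff_card hg, lt_iff_card hg', card_lt, card_lt]
    simp only [hc]
  funext a
  apply le_antisymm
  · by_contra hcon
    rw [not_le] at hcon
    exact lt_irrefl _ ((key a (g a)).2 hcon)
  · by_contra hcon
    rw [not_le] at hcon
    exact lt_irrefl _ ((key a (g' a)).1 hcon)

lemma exists_copy {N k h : ℕ} (q : Fin N → Fin k) (hq : Monotone q) (τ : Fin h → Fin k)
    (hτ : Monotone τ) (S : Finset (Fin N))
    (hS : ∀ i, cnt τ i ≤ (S.filter (fun v => q v = i)).card) :
    ∃ f : Fin h → Fin N, StrictMono f ∧ (∀ a, f a ∈ S) ∧ ∀ a, q (f a) = τ a := by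
  choose A hA hAc using fun i => Finset.exists_subset_card_eq (hS i)
  have hdisj : ∀ i ∈ (Finset.univ : Finset (Fin k)), ∀ j ∈ (Finset.univ : Finset (Fin k)),
      i ≠ j → Disjoint (A i) (A j) := by
    intro i _ j _ hij
    rw [Finset.disjoint_left]
    intro v hv hv'
    have h1 := (Finset.mem_filter.1 (hA i hv)).2
    have h2 := (Finset.mem_filter.1 (hA j hv')).2
    exact hij (h1.symm.trans h2)
  have hcard : (Finset.univ.biUnion A).card = h := by
    rw [Finset.card_biUnion hdisj]
    simp only [hAc]
    exact sum_cnt τ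
  let f := (Finset.univ.biUnion A).orderEmbOfFin hcard
  have hmem : ∀ a, f a ∈ Finset.univ.biUnion A := fun a =>
    Finset.orderEmbOfFin_mem _ hcard a
  have hmono : StrictMono f := OrderEmbedding.strictMono _
  have heq : (fun a => q (f a)) = τ := by
    apply mono_eq (hq.comp hmono.monotone) hτ
    intro i
    rw [← hAc i]
    unfold cnt
    rw [← Finset.card_image_of_injective _ hmono.injective]
    congr 1
    ext v
    simp only [Finset.mem_image, Finset.mem_filter, Finset.mem_univ, true_and]
    constructor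
    · rintro ⟨a, ha, rfl⟩
      have h1 := hmem a
      rw [Finset.mem_biUnion] at h1
      obtain ⟨j, _, hj⟩ := h1
      have h2 := (Finset.mem_filter.1 (hA j hj)).2
      rw [← ha]
      rw [← h2] at hj
      exact hj
    · intro hv
      have h1 : v ∈ Finset.univ.biUnion A := Finset.mem_biUnion.2 ⟨i, Finset.mem_univ _, hv⟩
      have h2 : v ∈ Set.range f := by
        rw [Finset.range_orderEmbOfFin]
        exact h1
      obtain ⟨a, rfl⟩ := h2
      exact ⟨a, (Finset.mem_filter.1 (hA i hv)).2, rfl⟩
  refine ⟨f, hmono, fun a => ?_, fun a => congrFun heq a⟩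
  have h1 := hmem a
  rw [Finset.mem_biUnion] at h1
  obtain ⟨j, _, hj⟩ := h1
  exact (Finset.mem_filter.1 (hA j hj)).1

lemma covered_insert {h n : ℕ} (T : Set (Fin h → Fin n)) (f : Fin h → Fin n) :
    covered (insert f T) = Set.range f ∪ covered T := by
  unfold covered
  rw [Set.biUnion_insert]

/-- Integral weights give a tiling. -/
lemma tiling_of_weights {N k h : ℕ} (H : SimpleGraph (Fin h)) (q : Fin N → Fin k)
    (hq : Monotone q) (G : SimpleGraph (Fin N)) (hG : ∀ u v, G.Adj u v ↔ q u ≠ q v) :
    ∀ (t : ℕ) (S : Finset (Fin N)) (n : Ty H k → ℕ), ∑ τ, n τ = t →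
      (∀ i, ∑ τ, n τ * cnt τ.1 i ≤ (S.filter (fun v => q v = i)).card) →
      ∃ T : Set (Fin h → Fin N), IsTiling H G T ∧ covered T ⊆ S ∧ (covered T).ncard = h * t := by
  intro t
  induction t with
  | zero =>
    intro S n _ _
    exact ⟨∅, ⟨by simp, by simp⟩, by simp [covered], by simp [covered]⟩
  | succ t ih =>
    intro S n hn hS
    classical
    obtain ⟨τ, hτ⟩ : ∃ τ, n τ ≠ 0 := by
      by_contra hcon
      push Not at hcon
      simp [hcon] at hn
    let n' : Ty H k → ℕ := fun τ' => n τ' - if τ' = τ then 1 else 0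
    have hnn : ∀ τ', n τ' = n' τ' + if τ' = τ then 1 else 0 := by
      intro τ'
      simp only [n']
      split_ifs with h1
      · subst h1; omega
      · omega
    have hsum : ∑ τ', n τ' = ∑ τ', n' τ' + 1 := by
      rw [Finset.sum_congr rfl fun τ' _ => hnn τ', Finset.sum_add_distrib]
      simp
    have hsum2 : ∀ i, ∑ τ', n τ' * cnt τ'.1 i = ∑ τ', n' τ' * cnt τ'.1 i + cnt τ.1 i := by
      intro i
      rw [Finset.sum_congr rfl fun τ' _ => by rw [hnn τ', add_mul], Finset.sum_add_distrib]
      simp
    obtain ⟨f, hf, hfS, hfq⟩ := exists_copy q hq τ.1 τ.2.1 S (fun i => by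
      have := hS i
      rw [hsum2 i] at this
      omega)
    obtain ⟨T, hT, hTS, hTc⟩ := ih (S \ Finset.univ.image f) n' (by omega) (fun i => by
      have h1 := hS i
      rw [hsum2 i] at h1
      have h2 : (S \ Finset.univ.image f).filter (fun v => q v = i) =
          (S.filter (fun v => q v = i)) \ (Finset.univ.filter (fun a => τ.1 a = i)).image f := by
        ext v
        simp only [Finset.mem_filter, Finset.mem_sdiff, Finset.mem_image, Finset.mem_univ,
          true_and]
        constructor
        · rintro ⟨⟨h3, h4⟩, h5⟩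
          exact ⟨⟨h3, h5⟩, fun ⟨a, _, ha⟩ => h4 ⟨a, ha⟩⟩
        · rintro ⟨⟨h3, h5⟩, h4⟩
          refine ⟨⟨h3, ?_⟩, h5⟩
          rintro ⟨a, rfl⟩
          exact h4 ⟨a, (hfq a).symm.trans h5, rfl⟩
      rw [h2, Finset.card_sdiff_of_subset, Finset.card_image_of_injective _ hf.injective]
      · have h6 : (Finset.univ.filter (fun a => τ.1 a = i)).card = cnt τ.1 i := rfl
        omega
      · intro v hv
        rw [Finset.mem_image] at hv
        obtain ⟨a, ha, rfl⟩ := hv
        rw [Finset.mem_filter] at ha ⊢
        exact ⟨hfS a, (hfq a).trans ha.2⟩)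
    have hdis : Disjoint (Set.range f) (covered T) := by
      rw [Set.disjoint_left]
      rintro _ ⟨a, rfl⟩ h2
      have h3 := hTS h2
      rw [Finset.mem_coe, Finset.mem_sdiff] at h3
      exact h3.2 (Finset.mem_image_of_mem _ (Finset.mem_univ _))
    have hgT : ∀ g ∈ T, Set.range g ⊆ covered T := by
      intro g hg v hv
      unfold covered
      exact Set.mem_biUnion hg hv
    refine ⟨insert f T, ⟨?_, ?_⟩, ?_, ?_⟩
    · intro g hg
      rcases hg with rfl | hg
      · refine ⟨hf, fun a b hab => ?_⟩
        rw [hG, hfq, hfq]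
        exact τ.2.2 a b hab
      · exact hT.1 g hg
    · intro g hg g' hg' hne
      rcases hg with rfl | hg
      · rcases hg' with rfl | hg'
        · exact absurd rfl hne
        · exact hdis.mono_right (hgT g' hg')
      · rcases hg' with rfl | hg'
        · exact (hdis.mono_right (hgT g hg)).symm
        · exact hT.2 g hg g' hg' hne
    · rw [covered_insert]
      rintro v (⟨a, rfl⟩ | hv)
      · exact hfS a
      · have := hTS hv
        rw [Finset.mem_coe, Finset.mem_sdiff] at this
        exact this.1
    · rw [covered_insert, Set.ncard_union_eq hdis (Set.toFinite _) (Set.toFinite _), hTc]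
      have : (Set.range f).ncard = h := by
        rw [← Set.image_univ, Set.ncard_image_of_injective _ hf.injective, Set.ncard_univ,
          Nat.card_eq_fintype_card, Fintype.card_fin]
      rw [this]
      ring

/-- A tiling gives integral weights. -/
lemma weights_of_tiling {N k h : ℕ} (H : SimpleGraph (Fin h)) (q : Fin N → Fin k)
    (hq : Monotone q) (G : SimpleGraph (Fin N)) (hG : ∀ u v, G.Adj u v ↔ q u ≠ q v)
    (T : Set (Fin h → Fin N)) (hT : IsTiling H G T) :
    ∃ n : Ty H k → ℕ, (∀ i, ∑ τ, n τ * cnt τ.1 i ≤ (Finset.univ.filter (fun v => q v = i)).card) ∧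
      (covered T).ncard = h * ∑ τ, n τ := by
  classical
  let Tf : Finset (Fin h → Fin N) := T.toFinset
  have hTf : ∀ f, f ∈ Tf ↔ f ∈ T := fun f => by simp [Tf]
  have hex : ∀ f ∈ Tf, ∃ τ : Ty H k, τ.1 = q ∘ f := by
    intro f hf
    have h1 := hT.1 f ((hTf f).1 hf)
    exact ⟨⟨q ∘ f, hq.comp h1.1.monotone, fun a b hab => (hG _ _).1 (h1.2 a b hab)⟩, rfl⟩
  have hsw : ∀ F : (Fin h → Fin k) → ℕ,
      ∑ τ : Ty H k, (∑ f ∈ Tf, if q ∘ f = τ.1 then 1 else 0) * F τ.1 = ∑ f ∈ Tf, F (q ∘ f) := by
    intro F
    simp only [Finset.sum_mul]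
    rw [Finset.sum_comm]
    refine Finset.sum_congr rfl fun f hf => ?_
    obtain ⟨τ, hτ⟩ := hex f hf
    rw [Finset.sum_eq_single τ]
    · rw [if_pos hτ.symm, one_mul, hτ]
    · intro τ' _ hne
      rw [if_neg, zero_mul]
      intro h2
      exact hne (Subtype.ext (h2.symm.trans hτ.symm))
    · intro h2
      exact absurd (Finset.mem_univ _) h2
  have hdisj : ∀ f ∈ Tf, ∀ g ∈ Tf, f ≠ g → Disjoint (Finset.univ.image f) (Finset.univ.image g) := by
    intro f hf g hg hne
    have h1 := hT.2 f ((hTf f).1 hf) g ((hTf g).1 hg) hne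
    rw [Finset.disjoint_left]
    intro v hv hv'
    simp only [Finset.mem_image, Finset.mem_univ, true_and] at hv hv'
    exact Set.disjoint_left.1 h1 hv hv'
  refine ⟨fun τ => ∑ f ∈ Tf, if q ∘ f = τ.1 then 1 else 0, fun i => ?_, ?_⟩
  · have h1 := hsw (fun g => cnt g i)
    rw [h1]
    have h2 : ∑ f ∈ Tf, cnt (q ∘ f) i = (Tf.biUnion (fun f =>
        (Finset.univ.filter (fun a => q (f a) = i)).image f)).card := by
      rw [Finset.card_biUnion]
      · refine Finset.sum_congr rfl fun f hf => ?_
        rw [Finset.card_image_of_injective _ (hT.1 f ((hTf f).1 hf)).1.injective]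
        rfl
      · intro f hf g hg hne
        exact (hdisj f hf g hg hne).mono (Finset.image_subset_image (Finset.filter_subset _ _))
          (Finset.image_subset_image (Finset.filter_subset _ _))
    rw [h2]
    apply Finset.card_le_card
    intro v hv
    simp only [Finset.mem_biUnion, Finset.mem_image, Finset.mem_filter, Finset.mem_univ,
      true_and] at hv ⊢
    obtain ⟨f, _, a, ha, rfl⟩ := hv
    exact ha
  · have h1 := hsw (fun _ => 1)
    simp only [mul_one, Finset.sum_const, smul_eq_mul] at h1
    rw [h1]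
    have h2 : covered T = ↑(Tf.biUnion (fun f => Finset.univ.image f)) := by
      ext v
      unfold covered
      simp only [Set.mem_iUnion, Set.mem_range, Finset.coe_biUnion, Finset.mem_coe, hTf,
        Finset.coe_image, Finset.coe_univ, Set.image_univ]
    rw [h2, Set.ncard_coe_finset, Finset.card_biUnion hdisj]
    rw [Finset.sum_congr rfl fun f hf => by
      rw [Finset.card_image_of_injective _ (hT.1 f ((hTf f).1 hf)).1.injective,
        Finset.card_univ, Fintype.card_fin]]
    rw [Finset.sum_const, smul_eq_mul, mul_comm]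

end Pool.Agent.H289PL
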