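import Pool.Agent.H730R4.Chi

/-!
Definitions for the threshold function of `(x, H)`-tilings in ordered graphs.
-/

namespace Pool.Agent.H289PL

open Pool.Agent.H730R4

/-- The ordered graph `G` on `n` vertices contains an `(x, H)`-tiling: some `H`-tiling in `G`
covers at least `x n` vertices. -/
def HasTiling {h n : ℕ} (x : ℝ) (H : SimpleGraph (Fin h)) (G : SimpleGraph (Fin n)) : Prop :=
  ∃ T : Set (Fin h → Fin n), IsTiling H G T ∧ x * n ≤ ((covered T).ncard : ℝ)

/-- `B` is an `x`-bottlegraph of the ordered graph `H`: it is a nonempty complete `k`-partite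
graph with nonempty parts (given by `c`), for some `m` one part has at most `m` vertices and the
others exactly `m`, and for every permutation `σ` of the parts and every interval labelling `φ` of
`B` with respect to `σ` the resulting ordered graph contains an `(x, H)`-tiling. -/
def IsBottle {h N : ℕ} (x : ℝ) (H : SimpleGraph (Fin h)) (B : SimpleGraph (Fin N)) : Prop :=
  0 < N ∧ ∃ (k m : ℕ) (c : Fin N → Fin k) (i₀ : Fin k), Function.Surjective c ∧
    (∀ u v, B.Adj u v ↔ c u ≠ c v) ∧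
    {v | c v = i₀}.ncard ≤ m ∧ (∀ i, i ≠ i₀ → {v | c v = i}.ncard = m) ∧
    ∀ (σ : Equiv.Perm (Fin k)) (φ : Equiv.Perm (Fin N)),
      (∀ u v, σ (c u) < σ (c v) → φ u < φ v) → HasTiling x H (B.comap φ.symm)

/-- The infimum `χ*_cr(x, H)` of `χ_cr(B)` over all `x`-bottlegraphs `B` of `H`. -/
noncomputable def chiStar {h : ℕ} (x : ℝ) (H : SimpleGraph (Fin h)) : ℝ :=
  sInf {y : ℝ | ∃ (N : ℕ) (B : SimpleGraph (Fin N)), IsBottle x H B ∧ y = chiCr B}

/-- The threshold `f(x, H) = 1 - 1 / χ*_cr(x, H)`. -/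
noncomputable def threshold {h : ℕ} (x : ℝ) (H : SimpleGraph (Fin h)) : ℝ :=
  1 - 1 / chiStar x H

/-- `(0,1)` is a union of finitely many intervals on each of which `g` is affine. -/
def PiecewiseLinear (g : ℝ → ℝ) : Prop :=
  ∃ (n : ℕ) (I : Fin n → Set ℝ), (⋃ i, I i) = Set.Ioo (0 : ℝ) 1 ∧
    ∀ i, (I i).OrdConnected ∧ ∃ a b : ℝ, ∀ x ∈ I i, g x = a * x + b

end Pool.Agent.H289PL
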