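import Mathlib

/-!
Fourier-Motzkin elimination: the projection of a finite system of linear inequalities
along finitely many real unknowns is again given by finitely many linear inequalities.
-/

namespace Pool.Agent.H289PL

lemma exists_between_sets {L U : Set ℝ} (hL : L.Finite) (hU : U.Finite)
    (h : ∀ l ∈ L, ∀ u ∈ U, l ≤ u) : ∃ t, (∀ l ∈ L, l ≤ t) ∧ ∀ u ∈ U, t ≤ u := by
  rcases L.eq_empty_or_nonempty with rfl | hLn
  · rcases U.eq_empty_or_nonempty with rfl | hUn
    · exact ⟨0, by simp, by simp⟩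
    · obtain ⟨u, hu, hmin⟩ := hU.exists_minimalFor (fun x => x) U hUn
      refine ⟨u, by simp, fun u' hu' => ?_⟩
      rcases le_total u u' with h1 | h1
      · exact h1
      · exact hmin hu' h1
  · obtain ⟨l, hl, hmax⟩ := hL.exists_maximalFor (fun x => x) L hLn
    refine ⟨l, fun l' hl' => ?_, fun u hu => h l hl u hu⟩
    rcases le_total l' l with h1 | h1
    · exact h1
    · exact hmax hl' h1

/-- Fourier-Motzkin elimination. The right-hand sides are linear in a parameter: they are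
vectors of a real vector space `A` at which a linear functional `v` is evaluated. -/
theorem fm {A : Type*} [AddCommGroup A] [Module ℝ A] : ∀ (n : ℕ) (C : Set ((Fin n → ℝ) × A)),
    C.Finite → ∃ D : Set A, D.Finite ∧ ∀ v : A →ₗ[ℝ] ℝ,
      (∃ w : Fin n → ℝ, ∀ c ∈ C, ∑ j, c.1 j * w j ≤ v c.2) ↔ ∀ d ∈ D, 0 ≤ v d := by
  intro n
  induction n with
  | zero =>
    intro C hC
    refine ⟨Prod.snd '' C, hC.image _, fun v => ?_⟩
    constructor
    · rintro ⟨w, hw⟩ d ⟨c, hc, rfl⟩
      simpa using hw c hc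
    · intro h
      refine ⟨fun j => j.elim0, fun c hc => ?_⟩
      simpa using h c.2 ⟨c, hc, rfl⟩
  | succ n ih =>
    intro C hC
    let comb : ((Fin (n + 1) → ℝ) × A) → ((Fin (n + 1) → ℝ) × A) → ((Fin n → ℝ) × A) :=
      fun p q => (fun j => p.1 0 * q.1 j.succ + (-q.1 0) * p.1 j.succ,
        p.1 0 • q.2 + (-q.1 0) • p.2)
    let tail : ((Fin (n + 1) → ℝ) × A) → ((Fin n → ℝ) × A) := fun c => (fun j => c.1 j.succ, c.2)
    obtain ⟨D, hD, hDv⟩ := ih ((tail '' {c ∈ C | c.1 0 = 0}) ∪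
      Set.image2 comb {c ∈ C | 0 < c.1 0} {c ∈ C | c.1 0 < 0})
      (((hC.subset (Set.sep_subset _ _)).image _).union
        ((hC.subset (Set.sep_subset _ _)).image2 _ (hC.subset (Set.sep_subset _ _))))
    refine ⟨D, hD, fun v => ?_⟩
    rw [← hDv v]
    constructor
    · rintro ⟨w, hw⟩
      refine ⟨fun j => w j.succ, ?_⟩
      rintro c' (⟨c, ⟨hc, hc0⟩, rfl⟩ | ⟨p, ⟨hp, hp0⟩, q, ⟨hq, hq0⟩, rfl⟩)
      · have := hw c hc
        rw [Fin.sum_univ_succ, hc0, zero_mul, zero_add] at this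
        exact this
      · have h1 := hw p hp
        have h2 := hw q hq
        rw [Fin.sum_univ_succ] at h1 h2
        have h3 : ∑ j, (p.1 0 * q.1 (Fin.succ j) + (-q.1 0) * p.1 (Fin.succ j)) * w j.succ
            = p.1 0 * ∑ j, q.1 (Fin.succ j) * w j.succ
              + (-q.1 0) * ∑ j, p.1 (Fin.succ j) * w j.succ := by
          rw [Finset.mul_sum, Finset.mul_sum, ← Finset.sum_add_distrib]
          exact Finset.sum_congr rfl fun j _ => by ring
        simp only [comb]
        rw [h3, map_add, map_smul, map_smul, smul_eq_mul, smul_eq_mul]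
        have h4 := mul_le_mul_of_nonneg_left h1 (by linarith : (0 : ℝ) ≤ -q.1 0)
        have h5 := mul_le_mul_of_nonneg_left h2 hp0.le
        nlinarith [h4, h5]
    · rintro ⟨w, hw⟩
      let S : ((Fin (n + 1) → ℝ) × A) → ℝ := fun c => ∑ j, c.1 (Fin.succ j) * w j
      let val : ((Fin (n + 1) → ℝ) × A) → ℝ := fun c => (v c.2 - S c) / c.1 0
      obtain ⟨t, ht1, ht2⟩ := exists_between_sets (L := val '' {c ∈ C | c.1 0 < 0})
        (U := val '' {c ∈ C | 0 < c.1 0})
        ((hC.subset (Set.sep_subset _ _)).image _) ((hC.subset (Set.sep_subset _ _)).image _) (by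
          rintro _ ⟨q, ⟨hq, hq0⟩, rfl⟩ _ ⟨p, ⟨hp, hp0⟩, rfl⟩
          have h := hw (comb p q) (Or.inr ⟨p, ⟨hp, hp0⟩, q, ⟨hq, hq0⟩, rfl⟩)
          have h3 : ∑ j, (p.1 0 * q.1 (Fin.succ j) + (-q.1 0) * p.1 (Fin.succ j)) * w j
              = p.1 0 * S q + (-q.1 0) * S p := by
            simp only [S]
            rw [Finset.mul_sum, Finset.mul_sum, ← Finset.sum_add_distrib]
            exact Finset.sum_congr rfl fun j _ => by ring
          simp only [comb] at h
          rw [h3, map_add, map_smul, map_smul, smul_eq_mul, smul_eq_mul] at h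
          change (v q.2 - S q) / q.1 0 ≤ (v p.2 - S p) / p.1 0
          have h6 : (v q.2 - S q) / q.1 0 = (S q - v q.2) / (-q.1 0) := by
            rw [div_neg, ← neg_div, neg_sub]
          rw [h6, div_le_div_iff₀ (by linarith) hp0]
          nlinarith [h])
      refine ⟨Fin.cons t w, fun c hc => ?_⟩
      rw [Fin.sum_univ_succ]
      simp only [Fin.cons_zero, Fin.cons_succ]
      rcases lt_trichotomy (c.1 0) 0 with h0 | h0 | h0
      · have h1 := ht1 (val c) ⟨c, ⟨hc, h0⟩, rfl⟩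
        change (v c.2 - S c) / c.1 0 ≤ t at h1
        rw [div_le_iff_of_neg h0] at h1
        change c.1 0 * t + S c ≤ v c.2
        linarith
      · have h1 := hw (tail c) (Or.inl ⟨c, ⟨hc, h0⟩, rfl⟩)
        rw [h0, zero_mul, zero_add]
        exact h1
      · have h1 := ht2 (val c) ⟨c, ⟨hc, h0⟩, rfl⟩
        change t ≤ (v c.2 - S c) / c.1 0 at h1
        rw [le_div_iff₀ h0] at h1
        change c.1 0 * t + S c ≤ v c.2
        linarith

/-- Fourier-Motzkin elimination for unknowns indexed by any finite type. -/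
theorem fm' {A : Type*} [AddCommGroup A] [Module ℝ A] {J : Type*} [Fintype J]
    (C : Set ((J → ℝ) × A)) (hC : C.Finite) : ∃ D : Set A, D.Finite ∧ ∀ v : A →ₗ[ℝ] ℝ,
      (∃ w : J → ℝ, ∀ c ∈ C, ∑ j, c.1 j * w j ≤ v c.2) ↔ ∀ d ∈ D, 0 ≤ v d := by
  let e := Fintype.equivFin J
  obtain ⟨D, hD, h⟩ := fm (A := A) (Fintype.card J)
    ((fun c => (fun j => c.1 (e.symm j), c.2)) '' C) (hC.image _)
  refine ⟨D, hD, fun v => ?_⟩
  rw [← h v]
  constructor
  · rintro ⟨w, hw⟩
    refine ⟨fun j => w (e.symm j), ?_⟩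
    rintro _ ⟨c, hc, rfl⟩
    have := hw c hc
    rw [← Equiv.sum_comp e.symm] at this
    exact this
  · rintro ⟨w, hw⟩
    refine ⟨fun j => w (e j), fun c hc => ?_⟩
    have := hw _ ⟨c, hc, rfl⟩
    rw [← Equiv.sum_comp e] at this
    simpa using this

end Pool.Agent.H289PL
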