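import Pool.Agent.H289PL.Defs

/-!
The upper boundary of a finite union of planar polyhedra is piecewise linear.
-/

namespace Pool.Agent.H289PL

lemma root_mem {s t x₀ x : ℝ} (h0 : s * x₀ + t ≤ 0) (h1 : 0 < s * x + t) :
    -t / s ∈ Set.uIcc x₀ x := by
  rcases lt_trichotomy s 0 with hs | hs | hs
  · rw [Set.mem_uIcc]
    right
    constructor
    · rw [le_div_iff_of_neg hs]
      linarith
    · rw [div_le_iff_of_neg hs]
      linarith
  · subst hs
    linarith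
  · rw [Set.mem_uIcc]
    left
    constructor
    · rw [le_div_iff₀ hs]
      linarith
    · rw [div_le_iff₀ hs]
      linarith

/-- The affine function given by a constraint. -/
noncomputable def ub (d : ℝ × ℝ × ℝ) : ℝ × ℝ := (-d.1 / d.2.1, -d.2.2 / d.2.1)

/-- Evaluation of an affine function. -/
def ev (l : ℝ × ℝ) (x : ℝ) : ℝ := l.1 * x + l.2

/-- The crossing abscissa of two affine functions. -/
noncomputable def cross (l l' : ℝ × ℝ) : ℝ := -(l.2 - l'.2) / (l.1 - l'.1)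

lemma rigid {I : Set ℝ} (hI : I.OrdConnected) {l l' : ℝ × ℝ} (hc : cross l l' ∉ I) {x₀ x : ℝ}
    (hx₀ : x₀ ∈ I) (hx : x ∈ I) (h : ev l x₀ ≤ ev l' x₀) : ev l x ≤ ev l' x := by
  by_contra hcon
  rw [not_le] at hcon
  unfold ev at h hcon
  apply hc
  have h1 := root_mem (s := l.1 - l'.1) (t := l.2 - l'.2) (x₀ := x₀) (x := x) (by linarith)
    (by linarith)
  exact hI.uIcc_subset hx₀ hx h1

lemma eval_eq {d : ℝ × ℝ × ℝ} (hd : d.2.1 ≠ 0) (x z : ℝ) :
    d.1 * x + d.2.1 * z + d.2.2 = d.2.1 * (z - ev (ub d) x) := by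
  unfold ub ev
  field_simp
  ring

/-- The polyhedron of `D` over `x`. -/
def Fib (D : Set (ℝ × ℝ × ℝ)) (x : ℝ) : Set ℝ := {z | ∀ d ∈ D, 0 ≤ d.1 * x + d.2.1 * z + d.2.2}

lemma top_exists {D : Set (ℝ × ℝ × ℝ)} (hD : D.Finite) {M x : ℝ}
    (hM : ∀ z ∈ Fib D x, z ≤ M) {z : ℝ} (hz : z ∈ Fib D x) :
    ∃ d ∈ D, d.2.1 < 0 ∧ ev (ub d) x ∈ Fib D x ∧ z ≤ ev (ub d) x := by
  have hne : {d ∈ D | d.2.1 < 0}.Nonempty := by
    by_contra hcon
    rw [Set.not_nonempty_iff_eq_empty] at hcon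
    have h1 : ∀ d ∈ D, 0 ≤ d.2.1 := by
      intro d hd
      by_contra h2
      have : d ∈ {d ∈ D | d.2.1 < 0} := ⟨hd, not_le.1 h2⟩
      rw [hcon] at this
      exact this
    have h3 : max z (M + 1) ∈ Fib D x := by
      intro d hd
      have h4 := hz d hd
      have h5 := mul_le_mul_of_nonneg_left (le_max_left z (M + 1)) (h1 d hd)
      linarith
    have h6 := hM _ h3
    have h7 := le_max_right z (M + 1)
    linarith
  obtain ⟨d, ⟨hd, hd0⟩, hmin⟩ := (hD.subset (Set.sep_subset D _)).exists_minimalFor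
    (fun d => ev (ub d) x) {d ∈ D | d.2.1 < 0} hne
  have hmin' : ∀ d' ∈ D, d'.2.1 < 0 → ev (ub d) x ≤ ev (ub d') x := by
    intro d' hd' hd0'
    rcases le_total (ev (ub d) x) (ev (ub d') x) with h | h
    · exact h
    · exact hmin ⟨hd', hd0'⟩ h
  have hle : ∀ d' ∈ D, d'.2.1 < 0 → z ≤ ev (ub d') x := by
    intro d' hd' h0
    have h1 := hz d' hd'
    rw [eval_eq h0.ne] at h1
    nlinarith [h1]
  refine ⟨d, hd, hd0, fun d' hd' => ?_, hle d hd hd0⟩
  rcases lt_or_ge d'.2.1 0 with h0 | h0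
  · rw [eval_eq h0.ne]
    have := hmin' d' hd' h0
    nlinarith [this]
  · have h1 := hz d' hd'
    have h2 := mul_le_mul_of_nonneg_left (hle d hd hd0) h0
    linarith

theorem geo {K : Type*} [Finite K] (D : K → Set (ℝ × ℝ × ℝ)) (hD : ∀ k, (D k).Finite) (M : ℝ)
    (hM : ∀ k x, ∀ z ∈ Fib (D k) x, z ≤ M)
    (hne : ∀ x ∈ Set.Ioo (0 : ℝ) 1, ∃ k, (Fib (D k) x).Nonempty) :
    ∃ T : Set ℝ, T.Finite ∧ ∀ I : Set ℝ, I.OrdConnected → I ⊆ Set.Ioo (0 : ℝ) 1 →
      Disjoint I T → I.Nonempty →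
      ∃ a b : ℝ, ∀ x ∈ I, (∃ k, a * x + b ∈ Fib (D k) x) ∧
        ∀ k, ∀ z ∈ Fib (D k) x, z ≤ a * x + b := by
  let L : Set (ℝ × ℝ) := {(0, 0)} ∪ (⋃ k, (fun d => (d.1, d.2.2)) '' D k) ∪ ⋃ k, ub '' D k
  have hL : L.Finite := by
    refine ((Set.finite_singleton _).union ?_).union ?_
    · exact Set.finite_iUnion fun k => (hD k).image _
    · exact Set.finite_iUnion fun k => (hD k).image _
  have hL0 : ((0 : ℝ), (0 : ℝ)) ∈ L := Or.inl (Or.inl rfl)
  have hL1 : ∀ k, ∀ d ∈ D k, (d.1, d.2.2) ∈ L := fun k d hd =>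
    Or.inl (Or.inr (Set.mem_iUnion.2 ⟨k, d, hd, rfl⟩))
  have hL2 : ∀ k, ∀ d ∈ D k, ub d ∈ L := fun k d hd =>
    Or.inr (Set.mem_iUnion.2 ⟨k, d, hd, rfl⟩)
  refine ⟨Set.image2 cross L L, hL.image2 _ hL, fun I hI _ hdis hIne => ?_⟩
  have hrig : ∀ l ∈ L, ∀ l' ∈ L, ∀ x₀ ∈ I, ∀ x ∈ I, ev l x₀ ≤ ev l' x₀ → ev l x ≤ ev l' x := by
    intro l hl l' hl' x₀ hx₀ x hx
    exact rigid hI (fun hc => Set.disjoint_left.1 hdis hc ⟨l, hl, l', hl', rfl⟩) hx₀ hx
  have htr : ∀ k, ∀ d ∈ D k, ∀ x₀ ∈ I, ∀ x ∈ I, ev (ub d) x₀ ∈ Fib (D k) x₀ →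
      ev (ub d) x ∈ Fib (D k) x := by
    intro k d hd x₀ hx₀ x hx h d' hd'
    rcases lt_trichotomy d'.2.1 0 with h0 | h0 | h0
    · have h1 := h d' hd'
      rw [eval_eq h0.ne] at h1 ⊢
      have h2 : ev (ub d) x₀ ≤ ev (ub d') x₀ := by
        by_contra hcon
        rw [not_le] at hcon
        nlinarith
      have h3 := hrig _ (hL2 k d hd) _ (hL2 k d' hd') x₀ hx₀ x hx h2
      nlinarith
    · have h1 := h d' hd'
      rw [h0, zero_mul, add_zero] at h1 ⊢
      have h2 : ev (0, 0) x₀ ≤ ev (d'.1, d'.2.2) x₀ := by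
        unfold ev; simpa using h1
      have h3 := hrig _ hL0 _ (hL1 k d' hd') x₀ hx₀ x hx h2
      unfold ev at h3
      simpa using h3
    · have h1 := h d' hd'
      rw [eval_eq h0.ne'] at h1 ⊢
      have h2 : ev (ub d') x₀ ≤ ev (ub d) x₀ := by
        by_contra hcon
        rw [not_le] at hcon
        nlinarith
      have h3 := hrig _ (hL2 k d' hd') _ (hL2 k d hd) x₀ hx₀ x hx h2
      nlinarith
  obtain ⟨x₀, hx₀⟩ := hIne
  let E : Set (ℝ × ℝ) := {u | ∃ k, ∃ d ∈ D k, u = ub d ∧ ev u x₀ ∈ Fib (D k) x₀}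
  have hEL : E ⊆ L := by
    rintro u ⟨k, d, hd, rfl, _⟩
    exact hL2 k d hd
  have hE : E.Finite := hL.subset hEL
  have hEne : E.Nonempty := by
    rename_i hsub
    obtain ⟨k, z, hz⟩ := hne x₀ (hsub hx₀)
    obtain ⟨d, hd, _, h1, _⟩ := top_exists (hD k) (hM k x₀) hz
    exact ⟨ub d, k, d, hd, rfl, h1⟩
  obtain ⟨u, hu, hmax⟩ := hE.exists_maximalFor (fun u => ev u x₀) E hEne
  have hmax' : ∀ u' ∈ E, ev u' x₀ ≤ ev u x₀ := by
    intro u' hu'
    rcases le_total (ev u' x₀) (ev u x₀) with h | h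
    · exact h
    · exact hmax hu' h
  refine ⟨u.1, u.2, fun x hx => ⟨?_, fun k z hz => ?_⟩⟩
  · obtain ⟨k, d, hd, rfl, h1⟩ := hu
    exact ⟨k, htr k d hd x₀ hx₀ x hx h1⟩
  · obtain ⟨d, hd, _, h1, h2⟩ := top_exists (hD k) (hM k x) hz
    have h3 := htr k d hd x hx x₀ hx₀ h1
    have h4 := hmax' (ub d) ⟨k, d, hd, rfl, h3⟩
    have h5 := hrig _ (hL2 k d hd) _ (hEL hu) x₀ hx₀ x hx h4
    exact h2.trans h5

/-- Affine on every interval avoiding finitely many points implies piecewise linear. -/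
theorem piecewise_of_finite {g : ℝ → ℝ} {T : Set ℝ} (hT : T.Finite)
    (h : ∀ I : Set ℝ, I.OrdConnected → I ⊆ Set.Ioo (0 : ℝ) 1 → Disjoint I T → I.Nonempty →
      ∃ a b : ℝ, ∀ x ∈ I, g x = a * x + b) : PiecewiseLinear g := by
  classical
  let S : Finset ℝ := insert 0 hT.toFinset
  have hS : ∀ t, t ∈ T → t ∈ S := fun t ht => Finset.mem_insert_of_mem (hT.mem_toFinset.2 ht)
  have hS0 : (0 : ℝ) ∈ S := Finset.mem_insert_self _ _
  have hS' : ∀ t, t ∈ S → t = 0 ∨ t ∈ T := fun t ht => by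
    rcases Finset.mem_insert.1 ht with h1 | h1
    · exact Or.inl h1
    · exact Or.inr (hT.mem_toFinset.1 h1)
  let J : S × Bool → Set ℝ := fun p => if p.2 then {x | x = p.1.1 ∧ x ∈ Set.Ioo (0 : ℝ) 1} else
    {x | x ∈ Set.Ioo (0 : ℝ) 1 ∧ p.1.1 < x ∧ ∀ s ∈ S, p.1.1 < s → x < s}
  let e := Fintype.equivFin (S × Bool)
  have hJ : ∀ p : S × Bool, (J p).OrdConnected ∧ ∃ a b : ℝ, ∀ x ∈ J p, g x = a * x + b := by
    intro p
    simp only [J]
    split_ifs with hb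
    · constructor
      · constructor
        intro x hx y hy z hz
        have h1 : x = p.1.1 := hx.1
        have h2 : y = p.1.1 := hy.1
        have h3 : z = p.1.1 := le_antisymm (hz.2.trans h2.le) (h1.ge.trans hz.1)
        refine ⟨h3, ?_⟩
        have h4 := hx.2
        rw [h1] at h4
        rw [h3]
        exact h4
      · refine ⟨0, g p.1.1, fun x hx => ?_⟩
        have h1 : x = p.1.1 := hx.1
        rw [h1]
        ring
    · have hord : ({x | x ∈ Set.Ioo (0 : ℝ) 1 ∧ p.1.1 < x ∧ ∀ s ∈ S, p.1.1 < s → x < s} :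
          Set ℝ).OrdConnected := by
        constructor
        intro x hx y hy z hz
        refine ⟨⟨lt_of_lt_of_le hx.1.1 hz.1, lt_of_le_of_lt hz.2 hy.1.2⟩,
          lt_of_lt_of_le hx.2.1 hz.1, fun s hs h1 => lt_of_le_of_lt hz.2 (hy.2.2 s hs h1)⟩
      refine ⟨hord, ?_⟩
      rcases Set.eq_empty_or_nonempty {x | x ∈ Set.Ioo (0 : ℝ) 1 ∧ p.1.1 < x ∧
        ∀ s ∈ S, p.1.1 < s → x < s} with h0 | h0
      · refine ⟨0, 0, fun x hx => ?_⟩
        rw [h0] at hx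
        exact absurd hx (Set.notMem_empty _)
      · refine h _ hord (fun x hx => hx.1) ?_ h0
        rw [Set.disjoint_left]
        intro x hx hxT
        exact lt_irrefl _ (hx.2.2 x (hS x hxT) hx.2.1)
  refine ⟨Fintype.card (S × Bool), fun i => J (e.symm i), ?_, fun i => ?_⟩
  · ext x
    simp only [Set.mem_iUnion]
    constructor
    · rintro ⟨i, hi⟩
      revert hi
      generalize e.symm i = p
      intro hi
      simp only [J] at hi
      split_ifs at hi with hb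
      · exact hi.2
      · exact hi.1
    · intro hx
      by_cases hxT : x ∈ S
      · refine ⟨e (⟨x, hxT⟩, true), ?_⟩
        rw [Equiv.symm_apply_apply]
        simp only [J, if_true]
        exact ⟨rfl, hx⟩
      · have hne : (S.filter (fun s => s < x)).Nonempty :=
          ⟨0, Finset.mem_filter.2 ⟨hS0, hx.1⟩⟩
        have hm := Finset.max'_mem _ hne
        rw [Finset.mem_filter] at hm
        refine ⟨e (⟨(S.filter (fun s => s < x)).max' hne, hm.1⟩, false), ?_⟩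
        rw [Equiv.symm_apply_apply]
        simp only [J]
        refine ⟨hx, hm.2, fun s hs h1 => ?_⟩
        by_contra hcon
        rw [not_lt] at hcon
        have h2 : s < x := lt_of_le_of_ne hcon (fun h => hxT (h ▸ hs))
        have h3 := Finset.le_max' (S.filter (fun s => s < x)) s (Finset.mem_filter.2 ⟨hs, h2⟩)
        exact absurd h1 (not_lt.2 h3)
  · exact hJ (e.symm i)

end Pool.Agent.H289PL
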