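import Pool.Agent.H289PL.FM
import Pool.Agent.H289PL.Comb

/-!
The fractional tiling problem and its polyhedrality in the pair (fraction, part size).
-/

namespace Pool.Agent.H289PL

open Pool.Agent.H730R4

/-- Fractional tilings: `z` is the size of the full parts relative to the whole graph. -/
def Fr {h : ℕ} (H : SimpleGraph (Fin h)) (k : ℕ) (x z : ℝ) : Prop :=
  1 ≤ (k : ℝ) * z ∧ ((k : ℝ) - 1) * z ≤ 1 ∧ ∀ p : Fin k, ∃ w : Ty H k → ℝ, (∀ τ, 0 ≤ w τ) ∧
    (∀ i, ∑ τ, (cnt τ.1 i : ℝ) * w τ ≤ if i = p then 1 - ((k : ℝ) - 1) * z else z) ∧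
    x ≤ h * ∑ τ, w τ

/-- Evaluation of a constraint at `(x, z)`. -/
def evL (x z : ℝ) : (ℝ × ℝ × ℝ) →ₗ[ℝ] ℝ where
  toFun d := d.1 * x + d.2.1 * z + d.2.2
  map_add' a b := by simp only [Prod.fst_add, Prod.snd_add]; ring
  map_smul' r a := by simp only [Prod.smul_fst, Prod.smul_snd, smul_eq_mul, RingHom.id_apply]; ring

lemma fr_poly {h : ℕ} (H : SimpleGraph (Fin h)) (k : ℕ) : ∃ D : Set (ℝ × ℝ × ℝ), D.Finite ∧
    ∀ x z, Fr H k x z ↔ ∀ d ∈ D, 0 ≤ d.1 * x + d.2.1 * z + d.2.2 := by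
  classical
  have hp : ∀ p : Fin k, ∃ D : Set (ℝ × ℝ × ℝ), D.Finite ∧ ∀ x z,
      (∃ w : Ty H k → ℝ, (∀ τ, 0 ≤ w τ) ∧
        (∀ i, ∑ τ, (cnt τ.1 i : ℝ) * w τ ≤ if i = p then 1 - ((k : ℝ) - 1) * z else z) ∧
        x ≤ h * ∑ τ, w τ) ↔ ∀ d ∈ D, 0 ≤ d.1 * x + d.2.1 * z + d.2.2 := by
    intro p
    let C : Set ((Ty H k → ℝ) × (ℝ × ℝ × ℝ)) :=
      (Set.range fun τ : Ty H k => (fun j => if j = τ then (-1 : ℝ) else 0, (0, 0, 0))) ∪
      (Set.range fun i : Fin k => (fun τ => (cnt τ.1 i : ℝ),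
        if i = p then (0, -((k : ℝ) - 1), 1) else (0, 1, 0))) ∪
      {(fun _ => -(h : ℝ), (-1, 0, 0))}
    obtain ⟨D, hD, hDv⟩ := fm' C (((Set.finite_range _).union (Set.finite_range _)).union
      (Set.finite_singleton _))
    have hev : ∀ (x z : ℝ) (i : Fin k),
        evL x z (if i = p then (0, -((k : ℝ) - 1), 1) else (0, 1, 0)) =
          if i = p then 1 - ((k : ℝ) - 1) * z else z := by
      intro x z i
      by_cases hip : i = p
      · rw [if_pos hip, if_pos hip]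
        change 0 * x + (-((k : ℝ) - 1)) * z + 1 = 1 - ((k : ℝ) - 1) * z
        ring
      · rw [if_neg hip, if_neg hip]
        change 0 * x + 1 * z + 0 = z
        ring
    refine ⟨D, hD, fun x z => ?_⟩
    have h1 := hDv (evL x z)
    have h2 : (∀ d ∈ D, 0 ≤ d.1 * x + d.2.1 * z + d.2.2) ↔ ∀ d ∈ D, 0 ≤ evL x z d := Iff.rfl
    rw [h2, ← h1]
    refine exists_congr fun w => ?_
    constructor
    · rintro ⟨h3, h4, h5⟩ c ((⟨τ, rfl⟩ | ⟨i, rfl⟩) | hc)
      · simp only [ite_mul, zero_mul, Finset.sum_ite_eq', Finset.mem_univ, if_true]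
        have := h3 τ
        change -1 * w τ ≤ 0 * x + 0 * z + 0
        linarith
      · have := h4 i
        exact this.trans (le_of_eq (hev x z i).symm)
      · rw [Set.mem_singleton_iff] at hc
        subst hc
        simp only
        rw [← Finset.mul_sum]
        change -(h : ℝ) * ∑ i, w i ≤ -1 * x + 0 * z + 0
        linarith
    · intro hC
      refine ⟨fun τ => ?_, fun i => ?_, ?_⟩
      · have := hC _ (Or.inl (Or.inl ⟨τ, rfl⟩))
        simp only [ite_mul, zero_mul, Finset.sum_ite_eq', Finset.mem_univ, if_true] at this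
        change -1 * w τ ≤ 0 * x + 0 * z + 0 at this
        linarith
      · have := hC _ (Or.inl (Or.inr ⟨i, rfl⟩))
        exact this.trans (le_of_eq (hev x z i))
      · have := hC _ (Or.inr rfl)
        simp only at this
        rw [← Finset.mul_sum] at this
        change -(h : ℝ) * ∑ i, w i ≤ -1 * x + 0 * z + 0 at this
        linarith
  choose D hD hDv using hp
  refine ⟨(⋃ p, D p) ∪ {(0, (k : ℝ), -1), (0, -((k : ℝ) - 1), 1)},
    (Set.finite_iUnion hD).union (Set.toFinite _), fun x z => ?_⟩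
  unfold Fr
  constructor
  · rintro ⟨h1, h2, h3⟩ d (hd | hd)
    · obtain ⟨p, hp⟩ := Set.mem_iUnion.1 hd
      exact (hDv p x z).1 (h3 p) d hp
    · rcases hd with rfl | hd
      · change 0 ≤ 0 * x + (k : ℝ) * z + -1
        linarith
      · rw [Set.mem_singleton_iff] at hd
        subst hd
        change 0 ≤ 0 * x + (-((k : ℝ) - 1)) * z + 1
        linarith
  · intro hall
    refine ⟨?_, ?_, fun p => (hDv p x z).2 fun d hd => hall d (Or.inl (Set.mem_iUnion.2 ⟨p, hd⟩))⟩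
    · have h1 := hall (0, (k : ℝ), -1) (Or.inr (Or.inl rfl))
      change 0 ≤ 0 * x + (k : ℝ) * z + -1 at h1
      linarith
    · have h1 := hall (0, -((k : ℝ) - 1), 1) (Or.inr (Or.inr rfl))
      change 0 ≤ 0 * x + (-((k : ℝ) - 1)) * z + 1 at h1
      linarith

end Pool.Agent.H289PL
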