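import Pool.Agent.H289PL.Bottle
import Pool.Agent.H289PL.Geo

/-!
The threshold function is piecewise linear.
-/

namespace Pool.Agent.H289PL

open Pool.Agent.H730R4

/-- A rational value of `z` slightly below a given one. -/
lemma exists_rat_z {k : ℕ} (hk : 2 ≤ k) {z' z₀ ρ : ℝ} (h1 : 1 ≤ (k : ℝ) * z')
    (h2 : ((k : ℝ) - 1) * z' ≤ 1) (hz₀ : z₀ < z') (hρ1 : ρ < 1) :
    ∃ a b : ℕ, 0 < a ∧ 0 < b ∧ z₀ < (a : ℝ) / b ∧ ρ * z' ≤ (a : ℝ) / b ∧ (a : ℝ) / b ≤ z' ∧
      b ≤ k * a ∧ ((k : ℝ) - 1) * a < b := by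
  have hk' : (2 : ℝ) ≤ k := by exact_mod_cast hk
  have hz' : 0 < z' := by
    by_contra hcon
    rw [not_lt] at hcon
    nlinarith
  rcases h1.eq_or_lt with h3 | h3
  · have h4 : z' = 1 / k := by
      rw [eq_div_iff (by linarith)]
      linarith
    refine ⟨1, k, one_pos, by omega, ?_, ?_, ?_, by omega, ?_⟩
    · rw [Nat.cast_one, ← h4]
      exact hz₀
    · rw [Nat.cast_one, ← h4]
      nlinarith
    · rw [Nat.cast_one, ← h4]
    · push_cast
      linarith
  · have h4 : 1 / (k : ℝ) < z' := by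
      rw [div_lt_iff₀ (by linarith)]
      linarith
    obtain ⟨q, hq1, hq2⟩ := exists_rat_btwn (show max (max (1 / (k : ℝ)) z₀) (ρ * z') < z' from
      max_lt (max_lt h4 hz₀) (by nlinarith))
    have hq3 : 1 / (k : ℝ) < q := lt_of_le_of_lt (le_trans (le_max_left _ _) (le_max_left _ _)) hq1
    have hq4 : z₀ < q := lt_of_le_of_lt (le_trans (le_max_right _ _) (le_max_left _ _)) hq1
    have hq5 : ρ * z' < q := lt_of_le_of_lt (le_max_right _ _) hq1
    have hq0 : (0 : ℝ) < q := lt_trans (by positivity) hq3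
    have hq0' : 0 < q := by exact_mod_cast hq0
    have hqe : (q : ℝ) = (q.num.toNat : ℝ) / q.den := by
      have h5 : (q : ℝ) = (q.num : ℝ) / q.den := by
        exact_mod_cast (Rat.num_div_den q).symm
      have h6 : ((q.num.toNat : ℕ) : ℤ) = q.num := Int.toNat_of_nonneg (Rat.num_nonneg.2 hq0'.le)
      have h7 := congrArg (fun n : ℤ => (n : ℝ)) h6
      simp only [Int.cast_natCast] at h7
      rw [h5, h7]
    have hden : (0 : ℝ) < q.den := by exact_mod_cast q.den_pos
    refine ⟨q.num.toNat, q.den, ?_, q.den_pos, ?_, ?_, ?_, ?_, ?_⟩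
    · have : 0 < q.num := Rat.num_pos.2 hq0'
      omega
    · rw [← hqe]; exact hq4
    · rw [← hqe]; exact hq5.le
    · rw [← hqe]; exact hq2.le
    · have h7 : (1 : ℝ) < k * q := by
        rw [div_lt_iff₀ (by linarith)] at hq3
        linarith
      rw [hqe, ← mul_div_assoc, lt_div_iff₀ hden, one_mul] at h7
      exact_mod_cast h7.le
    · have h7 : ((k : ℝ) - 1) * q < 1 := by
        have : ((k : ℝ) - 1) * q < ((k : ℝ) - 1) * z' := by
          apply mul_lt_mul_of_pos_left hq2
          linarith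
        linarith
      rw [hqe, ← mul_div_assoc, div_lt_iff₀ hden, one_mul] at h7
      exact h7

/-- A fractional solution for a larger fraction gives bottlegraphs. -/
lemma bottle_of_fr {h k : ℕ} {H : SimpleGraph (Fin h)} {x x' z' : ℝ} (hk : 2 ≤ k)
    (hx : 0 < x) (hxx : x < x') (hF : Fr H k x' z') {z₀ : ℝ} (hz₀ : z₀ < z') :
    ∃ (N : ℕ) (B : SimpleGraph (Fin N)) (z : ℝ), IsBottle x H B ∧ z₀ < z ∧ 0 < z ∧
      chiCr B = 1 / z := by
  classical
  obtain ⟨h1, h2, hw⟩ := hF
  have hx' : 0 < x' := hx.trans hxx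
  set ρ : ℝ := (x + x') / (2 * x') with hρ
  have hρ0 : 0 < ρ := by positivity
  have hρ1 : ρ < 1 := by
    rw [hρ, div_lt_one (by positivity)]
    linarith
  have hρx : ρ * x' = (x + x') / 2 := by
    rw [hρ]
    field_simp
  obtain ⟨a, b, ha, hb, hz1, hz2, hz3, hab1, hab2⟩ := exists_rat_z hk h1 h2 hz₀ hρ1
  have ha' : (0 : ℝ) < a := by exact_mod_cast ha
  have hb' : (0 : ℝ) < b := by exact_mod_cast hb
  have hk' : (2 : ℝ) ≤ k := by exact_mod_cast hk
  have hz'0 : 0 < z' := lt_of_lt_of_le (by positivity) hz3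
  -- the small part
  obtain ⟨s₀, hs₀⟩ : ∃ s₀ : ℕ, (s₀ : ℝ) = b - ((k : ℝ) - 1) * a := by
    have h3 : (k - 1) * a ≤ b := by
      have h4 : (((k - 1) * a : ℕ) : ℝ) ≤ b := by
        push_cast [Nat.cast_sub (show 1 ≤ k by omega)]
        exact hab2.le
      exact_mod_cast h4
    refine ⟨b - (k - 1) * a, ?_⟩
    push_cast [Nat.cast_sub h3, Nat.cast_sub (show 1 ≤ k by omega)]
    ring
  have hs₀pos : 0 < s₀ := by
    have : (0 : ℝ) < s₀ := by rw [hs₀]; linarith
    exact_mod_cast this
  have hs₀a : s₀ ≤ a := by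
    have : (s₀ : ℝ) ≤ a := by
      rw [hs₀]
      have : (b : ℝ) ≤ k * a := by exact_mod_cast hab1
      linarith
    exact_mod_cast this
  -- the scale
  obtain ⟨t, ht⟩ := exists_nat_ge (max 1 ((h * Fintype.card (Ty H k) : ℝ) / (b * ((x' - x) / 2))))
  have ht1 : (1 : ℝ) ≤ t := le_trans (le_max_left _ _) ht
  have ht2 : (h * Fintype.card (Ty H k) : ℝ) ≤ t * (b * ((x' - x) / 2)) := by
    have := le_trans (le_max_right _ _) ht
    rwa [div_le_iff₀ (mul_pos hb' (by linarith))] at this
  have ht0 : 0 < t := by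
    have : (0 : ℝ) < t := by linarith
    exact_mod_cast this
  have hN : ((k : ℝ) - 1) * ((a * t : ℕ) : ℝ) + ((s₀ * t : ℕ) : ℝ) = b * t := by
    push_cast
    rw [hs₀]
    ring
  obtain ⟨N, B, hB, hchi⟩ := bottle_of_weights (H := H) (x := x) (m := a * t) (s := s₀ * t) hk
    (Nat.mul_pos hs₀pos ht0) (Nat.mul_le_mul_right _ hs₀a) (fun p => by
      obtain ⟨w, hw0, hw1, hw2⟩ := hw p
      refine ⟨fun τ => ⌊b * t * ρ * w τ⌋₊, fun i => ?_, ?_⟩
      · have h3 : ((∑ τ : Ty H k, ⌊b * t * ρ * w τ⌋₊ * cnt τ.1 i : ℕ) : ℝ) ≤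
            b * t * ρ * (if i = p then 1 - ((k : ℝ) - 1) * z' else z') := by
          push_cast
          calc ∑ τ : Ty H k, (⌊b * t * ρ * w τ⌋₊ : ℝ) * (cnt τ.1 i : ℝ)
              ≤ ∑ τ : Ty H k, (b * t * ρ * w τ) * (cnt τ.1 i : ℝ) := by
                apply Finset.sum_le_sum
                intro τ _
                apply mul_le_mul_of_nonneg_right _ (Nat.cast_nonneg _)
                exact Nat.floor_le (by have := hw0 τ; positivity)
            _ = b * t * ρ * ∑ τ : Ty H k, (cnt τ.1 i : ℝ) * w τ := by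
                rw [Finset.mul_sum]
                exact Finset.sum_congr rfl fun τ _ => by ring
            _ ≤ _ := mul_le_mul_of_nonneg_left (hw1 i) (by positivity)
        have h4 : b * t * ρ * (if i = p then 1 - ((k : ℝ) - 1) * z' else z') ≤
            ((if i = p then s₀ * t else a * t : ℕ) : ℝ) := by
          split_ifs
          · push_cast
            rw [hs₀]
            have h5 : ((k : ℝ) - 1) * (a / b) ≤ ((k : ℝ) - 1) * z' :=
              mul_le_mul_of_nonneg_left hz3 (by linarith)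
            have h6 : ρ * (1 - ((k : ℝ) - 1) * z') ≤ 1 - ((k : ℝ) - 1) * (a / b) := by
              nlinarith
            have h7 := mul_le_mul_of_nonneg_left h6 (show (0 : ℝ) ≤ b * t by positivity)
            calc b * t * ρ * (1 - ((k : ℝ) - 1) * z')
                = b * t * (ρ * (1 - ((k : ℝ) - 1) * z')) := by ring
              _ ≤ _ := h7
              _ = _ := by
                field_simp
          · push_cast
            have h7 := mul_le_mul_of_nonneg_left hz2 (show (0 : ℝ) ≤ b * t by positivity)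
            calc b * t * ρ * z' = b * t * (ρ * z') := by ring
              _ ≤ _ := h7
              _ = _ := by
                field_simp
        exact_mod_cast h3.trans h4
      · rw [hN]
        have h3 : (h : ℝ) * ∑ τ : Ty H k, (b * t * ρ * w τ - 1) ≤
            h * ∑ τ : Ty H k, (⌊b * t * ρ * w τ⌋₊ : ℝ) := by
          apply mul_le_mul_of_nonneg_left _ (Nat.cast_nonneg _)
          apply Finset.sum_le_sum
          intro τ _
          exact (Nat.sub_one_lt_floor _).le
        refine le_trans ?_ h3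
        rw [Finset.sum_sub_distrib, ← Finset.mul_sum, Finset.sum_const, Finset.card_univ,
          nsmul_eq_mul, mul_one]
        have h4 := mul_le_mul_of_nonneg_left hw2 (show (0 : ℝ) ≤ b * t * ρ by positivity)
        have h5 : (b : ℝ) * t * ρ * x' = b * t * ((x + x') / 2) := by
          rw [mul_assoc, hρx]
        rw [h5] at h4
        nlinarith [h4, ht2])
  refine ⟨N, B, a / b, hB, hz1, by positivity, ?_⟩
  rw [hchi, hN]
  push_cast
  have ht' : (0 : ℝ) < t := by exact_mod_cast ht0
  field_simp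

/-- The equal-parts solution. -/
lemma fr_equal {h : ℕ} (H : SimpleGraph (Fin h)) (hh : 0 < h) {x : ℝ} (hx : x ≤ 1) :
    Fr H h x (1 / h) := by
  classical
  have hh' : (0 : ℝ) < h := by exact_mod_cast hh
  refine ⟨?_, ?_, fun p => ?_⟩
  · rw [mul_one_div_cancel hh'.ne']
  · rw [mul_one_div, div_le_one hh']
    linarith
  · let id' : Ty H h := ⟨id, monotone_id, fun a b hab => hab.ne⟩
    refine ⟨fun τ => if τ = id' then 1 / h else 0, fun τ => ?_, fun i => ?_, ?_⟩
    · change (0 : ℝ) ≤ if τ = id' then 1 / (h : ℝ) else 0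
      split_ifs
      · positivity
      · exact le_refl _
    · simp only [mul_ite, mul_zero, Finset.sum_ite_eq', Finset.mem_univ, if_true]
      have h1 : cnt id'.1 i = 1 := by
        unfold cnt
        simp only [id', id]
        rw [Finset.filter_eq']
        simp
      rw [h1, Nat.cast_one, one_mul]
      split_ifs
      · rw [mul_one_div, sub_div, div_self hh'.ne']
        linarith
      · exact le_refl _
    · simp only [Finset.sum_ite_eq', Finset.mem_univ, if_true]
      rw [mul_one_div_cancel hh'.ne']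
      exact hx

theorem main_edge {h : ℕ} (H : SimpleGraph (Fin h)) {a₀ b₀ : Fin h} (hab : H.Adj a₀ b₀) :
    PiecewiseLinear (fun x => threshold x H) := by
  classical
  have hh : 2 ≤ h := by
    have h1 : (a₀ : ℕ) ≠ b₀ := fun hne => hab.ne (Fin.ext hne)
    have := a₀.isLt
    have := b₀.isLt
    omega
  have hh' : (2 : ℝ) ≤ h := by exact_mod_cast hh
  choose D hD hDv using fun k : ℕ => fr_poly H k
  -- number of parts: `k = j + 2` for `j < h`
  let E : Fin h → Set (ℝ × ℝ × ℝ) := fun j => D ((j : ℕ) + 2)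
  have hE : ∀ j x z, z ∈ Fib (E j) x ↔ Fr H ((j : ℕ) + 2) x z := fun j x z => (hDv _ x z).symm
  have hM : ∀ j x, ∀ z ∈ Fib (E j) x, z ≤ 1 := by
    intro j x z hz
    rw [hE] at hz
    obtain ⟨h1, h2, _⟩ := hz
    push_cast at h1 h2
    have hj : (0 : ℝ) ≤ (j : ℕ) := Nat.cast_nonneg _
    have hz0 : 0 < z := by
      by_contra hcon
      rw [not_lt] at hcon
      nlinarith
    nlinarith
  have heq : ∀ x ∈ Set.Ioo (0 : ℝ) 1, (1 / h : ℝ) ∈ Fib (E ⟨h - 2, by omega⟩) x := by
    intro x hx
    rw [hE]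
    have h1 : ((⟨h - 2, by omega⟩ : Fin h) : ℕ) + 2 = h := by
      change h - 2 + 2 = h
      omega
    rw [h1]
    exact fr_equal H (by omega) hx.2.le
  obtain ⟨T, hT, hTI⟩ := geo E (fun j => hD _) 1 hM (fun x hx => ⟨_, _, heq x hx⟩)
  -- the value of the infimum
  have key : ∀ x ∈ Set.Ioo (0 : ℝ) 1, x ∉ T → ∀ m : ℝ, (∃ j, m ∈ Fib (E j) x) →
      (∀ j, ∀ z ∈ Fib (E j) x, z ≤ m) → chiStar x H = 1 / m := by
    intro x hx hxT m hm1 hm2
    have hmh : 1 / (h : ℝ) ≤ m := hm2 _ _ (heq x hx)
    have hm0 : 0 < m := lt_of_lt_of_le (by positivity) hmh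
    -- an interval to the right of `x`
    obtain ⟨ε, hε, hεT⟩ : ∃ ε > 0, ∀ y, x ≤ y → y ≤ x + ε → y < 1 ∧ y ∉ T := by
      have hopen : IsOpen (Tᶜ ∩ Set.Iio (1 : ℝ)) := hT.isClosed.isOpen_compl.inter isOpen_Iio
      obtain ⟨δ, hδ, hball⟩ := Metric.isOpen_iff.1 hopen x ⟨hxT, hx.2⟩
      refine ⟨δ / 2, by positivity, fun y hy1 hy2 => ?_⟩
      have : y ∈ Metric.ball x δ := by
        rw [Metric.mem_ball, Real.dist_eq, abs_lt]
        constructor <;> linarith
      exact ⟨(hball this).2, (hball this).1⟩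
    obtain ⟨α, β, hαβ⟩ := hTI (Set.Icc x (x + ε)) Set.ordConnected_Icc
      (fun y hy => ⟨lt_of_lt_of_le hx.1 hy.1, (hεT y hy.1 hy.2).1⟩)
      (Set.disjoint_left.2 fun y hy => (hεT y hy.1 hy.2).2) ⟨x, le_refl _, by linarith⟩
    have hmx : α * x + β = m := by
      obtain ⟨⟨j, hj⟩, h2⟩ := hαβ x ⟨le_refl _, by linarith⟩
      apply le_antisymm (hm2 j _ hj)
      obtain ⟨j', hj'⟩ := hm1
      exact h2 j' m hj'
    -- lower bound
    have hlow : ∀ y ∈ {y : ℝ | ∃ (N : ℕ) (B : SimpleGraph (Fin N)), IsBottle x H B ∧ y = chiCr B},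
        1 / m ≤ y := by
      rintro y ⟨N, B, hB, rfl⟩
      obtain ⟨k, z, hk, hz, hF, hchi⟩ := fr_of_bottle hab hx.1 hB
      rw [hchi]
      apply one_div_le_one_div_of_le hz
      rcases Nat.lt_or_ge k (h + 2) with hkh | hkh
      · apply hm2 ⟨k - 2, by omega⟩
        rw [hE]
        have h1 : ((⟨k - 2, by omega⟩ : Fin h) : ℕ) + 2 = k := by
          change k - 2 + 2 = k
          omega
        rw [h1]
        exact hF
      · refine le_trans ?_ hmh
        have h1 := hF.2.1
        have h2 : (h : ℝ) + 2 ≤ k := by exact_mod_cast hkh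
        rw [le_div_iff₀ (by linarith)]
        nlinarith
    -- upper bound
    have hup : ∀ z₀, z₀ < m → ∃ y ∈ {y : ℝ | ∃ (N : ℕ) (B : SimpleGraph (Fin N)),
        IsBottle x H B ∧ y = chiCr B}, ∃ z, z₀ < z ∧ 0 < z ∧ y = 1 / z := by
      intro z₀ hz₀
      let y := x + min ε ((m - z₀) / (2 * (|α| + 1)))
      have hmin : 0 < min ε ((m - z₀) / (2 * (|α| + 1))) := by
        apply lt_min hε
        apply div_pos (by linarith)
        positivity
      have hy1 : x < y := by
        simp only [y]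
        linarith
      have hy2 : y ≤ x + ε := by
        simp only [y]
        have := min_le_left ε ((m - z₀) / (2 * (|α| + 1)))
        linarith
      have hy3 : z₀ < α * y + β := by
        have h1 : α * y + β = m + α * (y - x) := by rw [← hmx]; ring
        have h2 : y - x ≤ (m - z₀) / (2 * (|α| + 1)) := by
          simp only [y]
          have := min_le_right ε ((m - z₀) / (2 * (|α| + 1)))
          linarith
        have h3 : -(|α| * (y - x)) ≤ α * (y - x) := by
          have := neg_abs_le α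
          nlinarith
        have h4 : |α| * (y - x) ≤ (m - z₀) / 2 := by
          have h5 : |α| * (y - x) ≤ (|α| + 1) * ((m - z₀) / (2 * (|α| + 1))) := by
            apply mul_le_mul _ h2 (by linarith) (by positivity)
            linarith
          have h6 : (|α| + 1) * ((m - z₀) / (2 * (|α| + 1))) = (m - z₀) / 2 := by
            have : |α| + 1 ≠ 0 := by positivity
            field_simp
          linarith
        rw [h1]
        linarith
      obtain ⟨⟨j, hj⟩, _⟩ := hαβ y ⟨hy1.le, hy2⟩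
      rw [hE] at hj
      obtain ⟨N, B, z, hB, hz1, hz2, hchi⟩ := bottle_of_fr (by omega) hx.1 hy1 hj hy3
      exact ⟨chiCr B, ⟨N, B, hB, rfl⟩, z, hz1, hz2, hchi⟩
    unfold chiStar
    apply le_antisymm
    · by_contra hcon
      rw [not_le] at hcon
      set v := sInf {y : ℝ | ∃ (N : ℕ) (B : SimpleGraph (Fin N)), IsBottle x H B ∧ y = chiCr B}
        with hv
      have hv0 : 0 < v := lt_trans (by positivity) hcon
      obtain ⟨y, hy, z, hz1, hz2, rfl⟩ := hup (1 / v) (by
        rw [one_div_lt hv0 hm0]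
        exact hcon)
      have h1 : v ≤ 1 / z := csInf_le ⟨1 / m, hlow⟩ hy
      have h2 : 1 / z < v := by
        rw [one_div_lt hz2 hv0]
        exact hz1
      linarith
    · obtain ⟨y, hy, _⟩ := hup (m - 1) (by linarith)
      exact le_csInf ⟨y, hy⟩ hlow
  refine piecewise_of_finite hT fun I hI hI1 hIT hIne => ?_
  obtain ⟨α, β, hαβ⟩ := hTI I hI hI1 hIT hIne
  refine ⟨-α, 1 - β, fun x hx => ?_⟩
  obtain ⟨h1, h2⟩ := hαβ x hx
  have h3 := key x (hI1 hx) (Set.disjoint_left.1 hIT hx) _ h1 h2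
  change 1 - 1 / chiStar x H = _
  rw [h3, one_div_one_div]
  ring

/-- Without edges every infimum is `0` (empty set, or one-part bottlegraphs). -/
lemma chiStar_edgeless {h : ℕ} (H : SimpleGraph (Fin h)) (hH : ∀ a b, ¬ H.Adj a b) {x : ℝ}
    (hx : 0 < x) (hx1 : x ≤ 1) : chiStar x H = 0 := by
  classical
  unfold chiStar
  rcases Nat.eq_zero_or_pos h with h0 | h0
  · subst h0
    have hemp : {y : ℝ | ∃ (N : ℕ) (B : SimpleGraph (Fin N)), IsBottle x H B ∧ y = chiCr B} =
        ∅ := by
      rw [Set.eq_empty_iff_forall_notMem]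
      rintro y ⟨N, B, ⟨hN, k, m, c, i₀, _, _, _, _, hall⟩, _⟩
      obtain ⟨φ, hφ⟩ := exists_sorted (fun v => (Equiv.refl (Fin k)) (c v))
      obtain ⟨T, _, hTx⟩ := hall (Equiv.refl _) φ hφ
      have hcov : covered T = ∅ := by
        rw [Set.eq_empty_iff_forall_notMem]
        intro v hv
        unfold covered at hv
        simp only [Set.mem_iUnion, Set.mem_range] at hv
        obtain ⟨f, _, a, _⟩ := hv
        exact a.elim0
      rw [hcov, Set.ncard_empty] at hTx
      have hN' : (0 : ℝ) < N := by exact_mod_cast hN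
      push_cast at hTx
      nlinarith [mul_pos hx hN']
    rw [hemp, Real.sInf_empty]
  · have hlow : ∀ y ∈ {y : ℝ | ∃ (N : ℕ) (B : SimpleGraph (Fin N)), IsBottle x H B ∧
        y = chiCr B}, 0 ≤ y := by
      rintro y ⟨N, B, ⟨hN, k, m, c, i₀, hc, hadj, _, _, _⟩, rfl⟩
      unfold chiCr
      rw [mp_chrom hc hadj]
      have h1 : leastClass B k ≤ N := by
        refine (mp_least_le hadj i₀).trans ?_
        have := Set.ncard_le_card {v | c v = i₀}
        simpa using this
      have h2 : (leastClass B k : ℝ) ≤ N := by exact_mod_cast h1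
      have h3 : (1 : ℝ) ≤ k := by exact_mod_cast i₀.pos
      apply div_nonneg _ (by linarith)
      exact mul_nonneg (by linarith) (Nat.cast_nonneg _)
    have hmem : (0 : ℝ) ∈ {y : ℝ | ∃ (N : ℕ) (B : SimpleGraph (Fin N)), IsBottle x H B ∧
        y = chiCr B} := by
      refine ⟨h, ⊥, ⟨h0, 1, h, fun _ => 0, 0, ?_, ?_, ?_, ?_, ?_⟩, ?_⟩
      · intro i
        exact ⟨⟨0, h0⟩, (Subsingleton.elim _ _)⟩
      · intro u v
        simp
      · simp
      · intro i hi
        exact absurd (Subsingleton.elim i 0) hi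
      · intro σ φ _
        refine ⟨{id}, ⟨?_, ?_⟩, ?_⟩
        · rintro f rfl
          exact ⟨strictMono_id, fun a b hab => absurd hab (hH a b)⟩
        · rintro f rfl g rfl hne
          exact absurd rfl hne
        · have : covered ({id} : Set (Fin h → Fin h)) = Set.univ := by
            unfold covered
            simp
          rw [this, Set.ncard_univ, Nat.card_eq_fintype_card, Fintype.card_fin]
          have hh' : (0 : ℝ) < h := by exact_mod_cast h0
          nlinarith
      · unfold chiCr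
        rw [mp_chrom (k := 1) (c := fun _ => 0) (fun i => ⟨⟨0, h0⟩, Subsingleton.elim _ _⟩)
          (fun u v => by simp)]
        simp
    exact le_antisymm (csInf_le ⟨0, hlow⟩ hmem) (le_csInf ⟨0, hmem⟩ hlow)

theorem main {h : ℕ} (H : SimpleGraph (Fin h)) : PiecewiseLinear (fun x => threshold x H) := by
  by_cases hH : ∃ a b, H.Adj a b
  · obtain ⟨a, b, hab⟩ := hH
    exact main_edge H hab
  · push Not at hH
    refine ⟨1, fun _ => Set.Ioo 0 1, ?_, fun _ => ⟨Set.ordConnected_Ioo, 0, 1, fun x hx => ?_⟩⟩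
    · exact Set.iUnion_const _
    · change 1 - 1 / chiStar x H = 0 * x + 1
      rw [chiStar_edgeless H hH hx.1 hx.2.le]
      simp

end Pool.Agent.H289PL
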